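import Pool.Agent.TH901.H2A.Stm

/-!
# DET2: detection of the relators of the even edges with label at least four
-/

set_option autoImplicit false

namespace Pool.Agent.TH993.H2A

open Pool.Agent.TH901.H2A Pool.Agent.Helper741

/-! ### The action and the form -/

/-- vectors and covectors -/
abbrev XX (B : Type) : Type := (B → ℝ) × Module.Dual ℝ (B → ℝ)

/-- the diagonal action on vectors and covectors -/
noncomputable def actX (B : Type) : ((B → ℝ) ≃ₗ[ℝ] (B → ℝ)) →* Equiv.Perm (XX B) where
  toFun g :=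
    { toFun := fun p => (g p.1, p.2 ∘ₗ ((g⁻¹ : (B → ℝ) ≃ₗ[ℝ] (B → ℝ)).toLinearMap))
      invFun := fun p => (g⁻¹ p.1, p.2 ∘ₗ (g.toLinearMap))
      left_inv := by
        rintro ⟨v, φ⟩
        ext1
        · exact g.symm_apply_apply v
        · ext1 w
          exact congrArg φ (g.symm_apply_apply w)
      right_inv := by
        rintro ⟨v, φ⟩
        ext1
        · exact g.apply_symm_apply v
        · ext1 w
          exact congrArg φ (g.apply_symm_apply w) }
  map_one' := by
    ext1 ⟨v, φ⟩
    rfl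
  map_mul' g h := by
    ext1 ⟨v, φ⟩
    refine Prod.ext rfl ?_
    apply LinearMap.ext
    intro w
    change φ ((g * h)⁻¹ w) = φ (h⁻¹ (g⁻¹ w))
    rw [mul_inv_rev]
    rfl

theorem actX_apply {B : Type} (g : (B → ℝ) ≃ₗ[ℝ] (B → ℝ)) (p : XX B) :
    actX B g p = (g p.1, p.2 ∘ₗ ((g⁻¹ : (B → ℝ) ≃ₗ[ℝ] (B → ℝ)).toLinearMap)) := rfl

/-- the alternating form -/
noncomputable def om {B : Type} (p q : XX B) : ℝ := (p.2 q.1) ^ 2 - (q.2 p.1) ^ 2

theorem om_self {B : Type} (p : XX B) : om p p = 0 := by
  rw [om, sub_self]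

theorem om_add {B : Type} (p q : XX B) : om p q + om q p = 0 := by
  rw [om, om]
  ring

theorem om_act {B : Type} (g : (B → ℝ) ≃ₗ[ℝ] (B → ℝ)) (p q : XX B) :
    om (actX B g p) (actX B g q) = om p q := by
  have h : ∀ p q : XX B, (actX B g p).2 (actX B g q).1 = p.2 q.1 := by
    intro p q
    rw [actX_apply, actX_apply]
    exact congrArg p.2 (g.symm_apply_apply q.1)
  rw [om, om, h, h]

/-! ### Chebyshev type identities -/

/-- the quadratic form -/
noncomputable def Q (c : ℝ) (k l : ℕ) : ℝ :=
  qs c (k + 1) * qs c (l + 1) - c * (qs c (k + 1) * qs c l + qs c k * qs c (l + 1)) +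
    qs c k * qs c l

theorem Q_comm (c : ℝ) (k l : ℕ) : Q c k l = Q c l k := by
  rw [Q, Q]
  ring

theorem Q_shift (c : ℝ) (k l : ℕ) : Q c (k + 1) (l + 1) = Q c k l := by
  rw [Q, Q, qs_add_two, qs_add_two]
  ring

theorem Q_add (c : ℝ) (k d : ℕ) : Q c k (k + d) = Q c 0 d := by
  induction k with
  | zero => rw [zero_add]
  | succ k ih =>
    have h : k + 1 + d = (k + d) + 1 := by omega
    rw [h, Q_shift, ih]

theorem Q_one (c : ℝ) : Q c 0 1 = c := by
  rw [Q, qs_add_two]
  simp
  ring

/-! ### The entries -/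

section Rep

variable {B : Type} [Fintype B] [DecidableEq B] (M : CoxeterMatrix B) (κ : B → B → ℝ)

theorem co_ee (i j : B) : co M κ i (ee j) = -2 * cc M i j * κ i j := by
  simp [co, ee, LinearMap.sum_apply, Pi.single_apply]

/-- the entries of the sequence -/
noncomputable def bt (i j : B) (k : ℕ) : XX B :=
  if Even k then (qs (cc M i j) (k + 1) • ee i + ((κ i j)⁻¹ * qs (cc M i j) k) • ee j,
    qs (cc M i j) (k + 1) • co M κ i + (κ i j * qs (cc M i j) k) • co M κ j)
  else ((κ i j * qs (cc M i j) (k + 1)) • ee i + qs (cc M i j) k • ee j,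
    ((κ i j)⁻¹ * qs (cc M i j) (k + 1)) • co M κ i + qs (cc M i j) k • co M κ j)

variable {κ}

theorem entry (hd : S_dih) (hκ : KC κ) {i j : B} (hij : i ≠ j) (h0 : M i j ≠ 0) (k : ℕ) :
    actX B (alt (rf M κ hκ i) (rf M κ hκ j) k)
      (if Even k then ((ee i, co M κ i) : XX B) else (ee j, co M κ j)) = bt M κ i j k := by
  obtain ⟨_, h2, h3, _⟩ := hd B M κ hκ i j hij h0
  have h2 := h2 k
  have h3 := h3 k
  rw [bt]
  by_cases hk : Even k
  · simp only [hk, if_true] at h2 h3 ⊢
    rw [actX_apply, h2, h3]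
  · simp only [hk, if_false] at h2 h3 ⊢
    rw [actX_apply, h2, h3]

theorem sq_eq (hd : S_dih) (hκ : KC κ) {i j : B} (hij : i ≠ j) (h0 : M i j ≠ 0) (m : ℕ) :
    Pool.Agent.TH901.H2A.sq (actX B) (rf M κ hκ i) (rf M κ hκ j) ((ee i, co M κ i) : XX B) (ee j, co M κ j) m =
      (List.range m).map (bt M κ i j) := by
  unfold Pool.Agent.TH901.H2A.sq
  apply List.map_congr_left
  intro k _
  exact entry M hd hκ hij h0 k

variable (κ)

theorem pair_bt (hκ : KC κ) (i j : B) (k l : ℕ) :
    (bt M κ i j k).2 (bt M κ i j l).1 =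
      (if Even k then 1 else (κ i j)⁻¹) * (if Even l then 1 else κ i j) *
        (2 * Q (cc M i j) k l) := by
  have hii : ∀ i, κ i i = 1 := by
    intro i
    have h := hκ.2 i i
    have h0 := hκ.1 i i
    nlinarith
  have h1 : co M κ i (ee i) = 2 := by rw [co_ee, cc_self, hii]; norm_num
  have h2 : co M κ j (ee j) = 2 := by rw [co_ee, cc_self, hii]; norm_num
  have h3 : co M κ i (ee j) = -2 * cc M i j * κ i j := co_ee M κ i j
  have hpos := hκ.1 i j
  have hk' : κ j i = (κ i j)⁻¹ := by
    have := hκ.2 i j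
    field_simp
    linarith
  have h4 : co M κ j (ee i) = -2 * cc M i j * (κ i j)⁻¹ := by
    rw [co_ee, cc_symm M j i, hk']
  have hne : κ i j ≠ 0 := hpos.ne'
  rw [bt, bt, Q]
  by_cases hk : Even k <;> by_cases hl : Even l <;>
    simp only [hk, hl, if_true, if_false, LinearMap.add_apply, LinearMap.smul_apply, map_add,
      map_smul, smul_eq_mul, h1, h2, h3, h4] <;> field_simp <;> ring

/-- the values of the form depend on the distance only, up to a sign -/
noncomputable def G (i j : B) (d : ℕ) : ℝ :=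
  if Even d then 0 else 4 * Q (cc M i j) 0 d ^ 2 * ((κ i j) ^ 2 - ((κ i j)⁻¹) ^ 2)

theorem om_bt (hκ : KC κ) (i j : B) (k d : ℕ) :
    om (bt M κ i j k) (bt M κ i j (k + d)) = (-1) ^ k * G M κ i j d := by
  rw [om, pair_bt M κ hκ, pair_bt M κ hκ, Q_comm _ (k + d) k, Q_add, G]
  by_cases hk : Even k <;> by_cases hd : Even d
  · have h : Even (k + d) := hk.add hd
    simp only [hk, hd, h, if_true]
    ring
  · have h : ¬ Even (k + d) := by rw [Nat.even_add]; tauto
    simp only [hk, hd, h, if_true, if_false, hk.neg_one_pow]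
    ring
  · have h : ¬ Even (k + d) := by rw [Nat.even_add]; tauto
    simp only [hk, hd, h, if_true, if_false]
    ring
  · have h : Even (k + d) := by rw [Nat.even_add]; tauto
    have h' : Odd k := Nat.not_even_iff_odd.1 hk
    simp only [hk, hd, h, if_true, if_false, h'.neg_one_pow]
    ring

end Rep

/-! ### The sum -/

section Sum

variable {X : Type} (ω : X → X → ℝ)

/-- the sums for a sequence whose form depends on the distance up to a sign -/
noncomputable def Ph (G : ℕ → ℝ) : ℕ → ℝ
  | 0 => 0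
  | n + 1 => ((List.range n).map (fun i => G (i + 1))).sum - Ph G n

theorem Ph_add_two (G : ℕ → ℝ) (n : ℕ) : Ph G (n + 2) = G (n + 1) + Ph G n := by
  rw [Ph, Ph, List.range_succ, List.map_append, List.sum_append]
  simp

theorem sumw_eq (x : ℕ → X) (G : ℕ → ℝ)
    (h : ∀ k d, ω (x k) (x (k + d)) = (-1) ^ k * G d) (n : ℕ) :
    ∀ s, sumw ω ((List.range n).map (fun i => x (s + i))) = (-1) ^ s * Ph G n := by
  induction n with
  | zero =>
    intro s
    simp [sumw, Ph]
  | succ n ih =>
    intro s
    rw [List.range_succ_eq_map, List.map_cons, List.map_map, sumw, Ph]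
    have h1 : (fun i => x (s + i)) ∘ Nat.succ = fun i => x ((s + 1) + i) := by
      funext i
      simp only [Function.comp, Nat.succ_eq_add_one]
      congr 1
      omega
    rw [h1, ih (s + 1), List.map_map]
    have h2 : (ω (x (s + 0))) ∘ (fun i => x ((s + 1) + i)) =
        fun i => (-1) ^ s * G (i + 1) := by
      funext i
      have h3 := h s (i + 1)
      have h4 : s + 1 + i = s + (i + 1) := by omega
      simp only [Function.comp, add_zero, h4, h3]
    rw [h2, List.sum_map_mul_left]
    ring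

theorem sumw_zero (l : List X) (h : ∀ x ∈ l, ∀ y ∈ l, ω x y = 0) : sumw ω l = 0 := by
  induction l with
  | nil => rfl
  | cons a l ih =>
    rw [sumw, ih fun x hx y hy => h x (List.mem_cons_of_mem _ hx) y (List.mem_cons_of_mem _ hy),
      add_zero]
    apply List.sum_eq_zero
    intro z hz
    obtain ⟨y, hy, rfl⟩ := List.mem_map.1 hz
    exact h a List.mem_cons_self y (List.mem_cons_of_mem _ hy)

end Sum

/-! ### Reversal -/

section Rev

variable {B : Type} [Fintype B] [DecidableEq B] (M : CoxeterMatrix B) (κ : B → B → ℝ)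

theorem bt_rev (hd : S_dih) (hκ : KC κ) {i j : B} (hij : i ≠ j) (h0 : M i j ≠ 0)
    (hodd : Odd (M i j) → κ i j = 1) (k : ℕ) (hk : k < M i j) :
    bt M κ j i k = bt M κ i j (M i j - 1 - k) := by
  obtain ⟨_, _, _, h4⟩ := hd B M κ hκ i j hij h0
  have h5 : qs (cc M i j) (M i j - 1 - k + 1) = qs (cc M i j) k := by
    rw [show M i j - 1 - k + 1 = M i j - k by omega]
    exact h4 k hk.le
  have h6 : qs (cc M i j) (M i j - 1 - k) = qs (cc M i j) (k + 1) := by
    rw [show M i j - 1 - k = M i j - (k + 1) by omega]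
    exact h4 (k + 1) hk
  have hpos := hκ.1 i j
  have hk' : κ j i = (κ i j)⁻¹ := by
    have := hκ.2 i j
    field_simp
    linarith
  rw [bt, bt, h5, h6, cc_symm M j i, hk', inv_inv]
  rcases Nat.even_or_odd (M i j) with hm | hm
  · by_cases he : Even k
    · have h7 : ¬ Even (M i j - 1 - k) := by
        rw [Nat.not_even_iff_odd]
        obtain ⟨u, hu⟩ := hm
        obtain ⟨v, hv⟩ := he
        exact ⟨u - v - 1, by omega⟩
      simp only [he, h7, if_true, if_false]
      rw [add_comm, add_comm (qs (cc M i j) (k + 1) • co M κ j)]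
    · have h7 : Even (M i j - 1 - k) := by
        obtain ⟨u, hu⟩ := hm
        obtain ⟨v, hv⟩ := Nat.not_even_iff_odd.1 he
        exact ⟨u - v - 1, by omega⟩
      simp only [he, h7, if_true, if_false]
      rw [add_comm, add_comm ((κ i j * qs (cc M i j) (k + 1)) • co M κ j)]
  · rw [hodd hm, inv_one]
    simp only [one_mul]
    have h8 : ∀ p : Prop, ∀ _ : Decidable p, ∀ z : XX B, (if p then z else z) = z := by
      intro p _ z
      split_ifs <;> rfl
    rw [h8, h8, add_comm, add_comm (qs (cc M i j) (k + 1) • co M κ j)]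

theorem rev_list (hd : S_dih) (hκ : KC κ) {i j : B} (hij : i ≠ j) (h0 : M i j ≠ 0)
    (hodd : Odd (M i j) → κ i j = 1) :
    (List.range (M i j)).map (bt M κ j i) = ((List.range (M i j)).map (bt M κ i j)).reverse := by
  apply List.ext_getElem
  · simp
  · intro k h1 h2
    rw [List.getElem_reverse, List.getElem_map, List.getElem_map, List.getElem_range,
      List.getElem_range, List.length_map, List.length_range]
    apply bt_rev M κ hd hκ hij h0 hodd
    simpa using h1

end Rev

/-! ### The theorem -/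

/-- the scaling -/
noncomputable def kap {B : Type} [DecidableEq B] (a b : B) : B → B → ℝ :=
  fun i j => if i = a ∧ j = b then 2 else if i = b ∧ j = a then 1 / 2 else 1

theorem kap_KC {B : Type} [DecidableEq B] {a b : B} (hab : a ≠ b) : KC (kap a b) := by
  constructor
  · intro i j
    rw [kap]
    split_ifs <;> norm_num
  · intro i j
    rw [kap, kap]
    by_cases h1 : i = a ∧ j = b
    · obtain ⟨rfl, rfl⟩ := h1
      simp [hab, hab.symm]
    · by_cases h2 : i = b ∧ j = a
      · obtain ⟨rfl, rfl⟩ := h2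
        simp [hab, hab.symm]
      · have h3 : ¬(j = a ∧ i = b) := fun h => h2 ⟨h.2, h.1⟩
        have h4 : ¬(j = b ∧ i = a) := fun h => h1 ⟨h.2, h.1⟩
        simp only [h1, h2, h3, h4, if_false]
        norm_num

theorem det2_of (h : Pool.Agent.TH901.H2A.S_dih) (hr : Pool.Agent.TH901.H2A.S_real) :
    Pool.Agent.TH901.H2A.S_det2 := by
  intro B _ _ M a b hab hev h4
  have hκ : KC (kap a b) := kap_KC hab
  set κ := kap a b with hκdef
  have hκ1 : ∀ i j, (i, j) ≠ (a, b) → (i, j) ≠ (b, a) → κ i j = 1 := by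
    intro i j h1 h2
    rw [hκdef, kap]
    rw [if_neg (fun h => h1 (Prod.ext h.1 h.2)), if_neg (fun h => h2 (Prod.ext h.1 h.2))]
  have hodd : ∀ i j, Odd (M i j) → κ i j = 1 := by
    intro i j hm
    apply hκ1
    · rintro h
      obtain ⟨rfl, rfl⟩ := Prod.mk.inj h
      exact (Nat.not_even_iff_odd.2 hm) hev
    · rintro h
      obtain ⟨rfl, rfl⟩ := Prod.mk.inj h
      rw [M.symmetric] at hm
      exact (Nat.not_even_iff_odd.2 hm) hev
  obtain ⟨c, hc, hc0, hc1⟩ := hr B _ (XX B) ℝ M (actX B) om om_self om_add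
    (fun g x y => om_act g x y) (fun i => (ee i, co M κ i)) (fun i => rf M κ hκ i)
    (fun i j hij h0 => (h B M κ hκ i j hij h0).1)
    (fun i j hij h0 => by
      rw [sq_eq M h hκ hij h0]
      have h0' : M j i ≠ 0 := by rw [M.symmetric]; exact h0
      rw [sq_eq M h hκ hij.symm h0']
      exact rev_list M κ h hκ hij h0 (hodd i j))
  refine ⟨c, hc, ?_, ?_⟩
  · have h0 : M a b ≠ 0 := by omega
    rw [hc1 a b hab h0, sq_eq M h hκ hab h0]
    have h1 := sumw_eq om (bt M κ a b) (G M κ a b) (om_bt M κ hκ a b) (M a b) 0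
    simp only [zero_add, pow_zero, one_mul] at h1
    have h2 : (List.range (M a b)).map (bt M κ a b) =
        (List.range (M a b)).map (fun i => bt M κ a b i) := rfl
    rw [h2, h1]
    have hκab : κ a b = 2 := by
      rw [hκdef, kap, if_pos ⟨rfl, rfl⟩]
    have hG : ∀ d, 0 ≤ G M κ a b d := by
      intro d
      rw [G, hκab]
      split_ifs
      · exact le_rfl
      · positivity
    have hG1 : 0 < G M κ a b 1 := by
      rw [G, hκab, Q_one, if_neg (by decide)]
      have h3 : 0 < cc M a b := by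
        rw [cc]
        apply Real.cos_pos_of_mem_Ioo
        have h5 : (4 : ℝ) ≤ (M a b : ℝ) := by exact_mod_cast h4
        have hpi := Real.pi_pos
        constructor
        · have : 0 < Real.pi / (M a b : ℝ) := by positivity
          linarith
        · rw [div_lt_iff₀ (by linarith)]
          nlinarith
      positivity
    have hPh : ∀ n, 0 < Ph (G M κ a b) (2 * n + 2) := by
      intro n
      induction n with
      | zero =>
        rw [Ph_add_two]
        simp only [Ph, mul_zero, zero_add, add_zero]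
        exact hG1
      | succ n ih =>
        rw [show 2 * (n + 1) + 2 = (2 * n + 2) + 2 by ring, Ph_add_two]
        have := hG (2 * n + 2 + 1)
        linarith
    obtain ⟨u, hu⟩ := hev
    have h6 : M a b = 2 * (u - 1) + 2 := by omega
    rw [h6]
    exact (hPh _).ne'
  · intro i j h1 h2
    by_cases hij : i = j
    · exact hc0 i j (Or.inl hij)
    · by_cases h0 : M i j = 0
      · exact hc0 i j (Or.inr h0)
      · rw [hc1 i j hij h0, sq_eq M h hκ hij h0]
        apply sumw_zero
        intro x hx y hy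
        obtain ⟨k, _, rfl⟩ := List.mem_map.1 hx
        obtain ⟨l, _, rfl⟩ := List.mem_map.1 hy
        rw [om, pair_bt M κ hκ, pair_bt M κ hκ, hκ1 i j h1 h2, Q_comm _ l k, inv_one]
        simp

end Pool.Agent.TH993.H2A
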